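import Pool.Agent.W2.BG.GGAKey

set_option autoImplicit false

/-!
# The backward heat flow of the gamma factor of an L-function near the line: the task S_GGA
-/

namespace Pool.Agent.W2.BG

open Complex MeasureTheory Filter Topology
open Pool.Agent.W475.BG (Dat Ok HH GG be S_STIR S_GGC S_GGA)
open Pool.Agent.W947.BH (ev_aux ev_aux2)

theorem gga (D : Dat) (hD : Ok D) (hS : S_STIR D) (hG : S_GGC D) : S_GGA D := by
  obtain ⟨K0, T0, hK0, hT0, hst⟩ := hS
  obtain ⟨Kc, hKc, hgi, hc'⟩ := hG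
  intro κ hκ K1 hK1
  have hd1 : (1 : ℝ) ≤ (D.d : ℝ) := by exact_mod_cast hD.hd
  set dr : ℝ := (D.d : ℝ) with hdr
  set q0 : ℝ := |Real.log D.Q| with hq0'
  have hq00 : 0 ≤ q0 := abs_nonneg _
  have hq01 : Real.log D.Q ≤ q0 := le_abs_self _
  have hq02 : -q0 ≤ Real.log D.Q := neg_abs_le _
  set Λ : ℝ := dr + 2 * q0 + 2 with hΛ
  have hΛ1 : 1 ≤ Λ := by linarith
  have hΛ0 : 0 < Λ := by linarith
  have hpi0 := Real.pi_pos
  set B : ℝ := dr * Real.pi / 4 + 1 with hB
  have hB1 : 1 ≤ B := by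
    have : 0 ≤ dr * Real.pi / 4 := by positivity
    linarith
  have hB0 : 0 < B := by linarith
  have hc : ∀ z : ℂ, 0 ≤ z.re →
      ‖HH D z‖ ≤ (1 + ‖z‖) ^ 2 * Real.exp (Kc * (1 + z.re) * Real.log (2 + z.re)) := by
    intro z hz
    refine (hc' z hz).trans ?_
    have h1 : (1 : ℝ) ≤ (1 + ‖z‖) ^ 2 := by
      have := norm_nonneg z
      nlinarith
    exact le_mul_of_one_le_left (Real.exp_pos _).le h1
  have hK0' : 0 < K0 := by linarith
  set c : ℝ := 1 / (64 * K0 ^ 2 * κ) with hcdef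
  have hc0 : 0 < c := by positivity
  set C2 : ℝ := 3 * K1 + K0 * K1 + Kc * (1 + K1) ^ 2 with hC2
  set C3 : ℝ := B * K1 + κ with hC3
  set C4 : ℝ := K1 + K0 * (K1 + 2 * κ) + κ with hC4
  have hspi := Real.sqrt_pos.2 Real.pi_pos
  have hsk := Real.sqrt_pos.2 hκ
  set q : ℝ := 1 / (2 * Real.sqrt Real.pi * Real.sqrt κ) * (2 * (2 * κ)) with hq
  have hq0 : 0 < q := by positivity
  have hC20 : 0 < C2 := by positivity
  have hC30 : 0 < C3 := by positivity
  have hC40 : 0 < C4 := by positivity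
  set C5 : ℝ := q + C2 + C3 + C4 + 1 with hC5
  have hC50 : 0 < C5 := by positivity
  set C6 : ℝ := 2 * K0 * (Real.exp (2 * κ * B ^ 2) * (2 * (K1 + 2 * κ) ^ 2 + 32 * κ)) with hC6
  have e1 := ev_aux ((C5 + 3) * Λ ^ 2) c hc0
  have e2 := ev_aux2 (C6 * Λ ^ 2)
  have e3 := ev_aux ((K1 + 2 * κ) * Λ + 1) (1 / 16) (by norm_num)
  have e4 := ev_aux (2 * K0 * ((K1 + 2 * κ) * Λ) ^ 2) (1 / 2) (by norm_num)
  have e5 : ∀ᶠ t : ℝ in atTop, (8 * κ * (34 + 16 * K0 + B) * (2 * K0)) ^ 2 ≤ t :=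
    eventually_ge_atTop _
  have e6 : ∀ᶠ t : ℝ in atTop, 2 * Real.pi * Real.exp (2 * q0 + 1) ≤ t :=
    eventually_ge_atTop _
  obtain ⟨T1, hT1⟩ := eventually_atTop.1 (e1.and (e2.and (e3.and (e4.and (e5.and e6)))))
  refine ⟨max (max T1 T0) (max 100 (8 * K0)), ?_, fun t ht u hu' hu0 => ?_⟩
  · exact le_trans (by norm_num) (le_trans (le_max_left _ _) (le_max_right _ _))
  have ht1 : T1 ≤ t := (le_max_left _ _).trans ((le_max_left _ _).trans ht)
  have ht0 : T0 ≤ t := (le_max_right _ _).trans ((le_max_left _ _).trans ht)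
  have ht100 : 100 ≤ t := (le_max_left _ _).trans ((le_max_right _ _).trans ht)
  have ht8 : 8 * K0 ≤ t := (le_max_right _ _).trans ((le_max_right _ _).trans ht)
  obtain ⟨g1, g2, g3, g4, g5, g6⟩ := hT1 t ht1
  obtain ⟨-, sb, s3, s4, s5, -⟩ := hst t ht0
  have htp : 0 < t := by linarith
  have hexp1 := Real.exp_one_lt_d9
  have hlt1 : 1 ≤ Real.log t := by
    rw [Real.le_log_iff_exp_le htp]
    linarith
  have hpi1 := Real.pi_gt_three
  have hpi2 := Real.pi_lt_d2
  have hlt2 : 2 * q0 + 1 ≤ Real.log (t / (2 * Real.pi)) := by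
    rw [Real.le_log_iff_exp_le (by positivity), le_div_iff₀ (by positivity)]
    linarith
  have hlt3 : Real.log (t / (2 * Real.pi)) ≤ Real.log t := by
    refine Real.log_le_log (by positivity) ?_
    refine div_le_self htp.le ?_
    linarith
  have hKt : K0 / t ≤ 1 / 8 := by
    rw [div_le_div_iff₀ htp (by norm_num)]
    linarith
  have hre := (Complex.abs_re_le_norm _).trans sb
  have him := (Complex.abs_im_le_norm _).trans sb
  have hre1 : (be D t - ((dr * Real.log (t / (2 * Real.pi)) / 2 + Real.log D.Q : ℝ) +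
      I * (dr * Real.pi / 4 : ℝ))).re =
      (be D t).re - (dr * Real.log (t / (2 * Real.pi)) / 2 + Real.log D.Q) := by
    simp only [Complex.sub_re, Complex.add_re, Complex.mul_re, Complex.ofReal_re,
      Complex.ofReal_im, Complex.I_re, Complex.I_im]
    ring
  have him1 : (be D t - ((dr * Real.log (t / (2 * Real.pi)) / 2 + Real.log D.Q : ℝ) +
      I * (dr * Real.pi / 4 : ℝ))).im =
      (be D t).im - dr * Real.pi / 4 := by
    simp only [Complex.sub_im, Complex.add_im, Complex.mul_im, Complex.ofReal_re,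
      Complex.ofReal_im, Complex.I_re, Complex.I_im]
    ring
  rw [hre1, abs_le] at hre
  rw [him1, abs_le] at him
  set L : ℝ := Λ * Real.log t with hL
  have hlogL : Real.log t ≤ L := le_mul_of_one_le_left (by linarith) hΛ1
  have hL1 : 1 ≤ L := hlt1.trans hlogL
  have hL0 : 0 < L := by linarith
  have hdl1 : 2 * q0 + 1 ≤ dr * Real.log (t / (2 * Real.pi)) := by
    have h1 : 1 * (2 * q0 + 1) ≤ dr * Real.log (t / (2 * Real.pi)) :=
      mul_le_mul hd1 hlt2 (by positivity) (by linarith)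
    linarith
  have hdl2 : dr * Real.log (t / (2 * Real.pi)) ≤ dr * Real.log t :=
    mul_le_mul_of_nonneg_left hlt3 (by linarith)
  have hLe : L = dr * Real.log t + 2 * q0 * Real.log t + 2 * Real.log t := by
    rw [hL, hΛ]
    ring
  have hql : q0 ≤ q0 * Real.log t := le_mul_of_one_le_right hq00 hlt1
  have hdl0 : 0 ≤ dr * Real.log t := by positivity
  have hb1 : 0 ≤ (be D t).re := by linarith [hre.1]
  have hb1' : (be D t).re ≤ L := by
    rw [hLe]
    linarith [hre.2]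
  have hb2 : |(be D t).im| ≤ B := by
    have h1 : 0 ≤ dr * Real.pi / 4 := by positivity
    rw [abs_le]
    constructor
    · linarith [him.1]
    · linarith [him.2]
  have hcc : dr * Real.log t / 2 ≤ L / 2 := by
    have h1 : 0 ≤ q0 * Real.log t := by positivity
    rw [hLe]
    linarith
  set X : ℝ := Real.sqrt t / (2 * K0) with hX
  have hst1 : 0 ≤ Real.sqrt t := Real.sqrt_nonneg t
  have hll : L ≤ L ^ 2 := by
    rw [sq]
    exact le_mul_of_one_le_left (by linarith) hL1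
  have hll' : Real.log t ≤ Real.log t ^ 2 := by
    rw [sq]
    exact le_mul_of_one_le_left (by linarith) hlt1
  have hL2 : L ^ 2 = Λ ^ 2 * Real.log t ^ 2 := by
    rw [hL]
    ring
  have hu : ‖u‖ ≤ K1 * L := hu'.trans (mul_le_mul_of_nonneg_left hlogL (by linarith))
  have hXs : X ≤ Real.sqrt t := div_le_self hst1 (by linarith)
  have hKL : (K1 + 2 * κ) * L = (K1 + 2 * κ) * Λ * Real.log t := by
    rw [hL]
    ring
  have hKL0 : 0 ≤ (K1 + 2 * κ) * Λ := by positivity
  have n0 : (K1 + 2 * κ) * L ≤ ((K1 + 2 * κ) * Λ + 1) * Real.log t ^ 2 := by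
    rw [hKL]
    exact mul_le_mul (by linarith) hll' (by linarith) (by positivity)
  have n0' : Real.sqrt t ≤ ((K1 + 2 * κ) * Λ + 1) * Real.sqrt t := by
    have := mul_le_mul_of_nonneg_right (show 1 ≤ (K1 + 2 * κ) * Λ + 1 by linarith) hst1
    linarith
  have n3 : (K1 + 2 * κ) * L + X ≤ t / 8 := by linarith
  have n3' : K1 * L ≤ t / 16 := by
    have h4 : 0 ≤ 2 * κ * L := by positivity
    have h5 : 0 ≤ ((K1 + 2 * κ) * Λ + 1) * Real.sqrt t := by positivity
    linarith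
  have n4 : 2 * K0 * ((K1 + 2 * κ) * L) ^ 2 ≤ t / 2 := by
    have h4 : 0 ≤ 2 * K0 * ((K1 + 2 * κ) * Λ) ^ 2 := by positivity
    have h5 : 0 ≤ 2 * K0 * ((K1 + 2 * κ) * Λ) ^ 2 * Real.sqrt t := by positivity
    have h6 : 2 * K0 * ((K1 + 2 * κ) * L) ^ 2 =
        2 * K0 * ((K1 + 2 * κ) * Λ) ^ 2 * Real.log t ^ 2 := by
      rw [hL]
      ring
    rw [h6]
    linarith
  have n5 : 8 * κ * (34 + 16 * K0 + B) ≤ X := by
    rw [hX, le_div_iff₀ (by positivity)]
    exact Real.le_sqrt_of_sq_le g5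
  have hg0 := hgi κ hκ (I * t + u) (by simpa using hu0)
  have hk := keyg (HH D) (be D t) (GG D κ (I * t + u)) κ K0 Kc K1 t X L (dr * Real.log t / 2) B u
    hκ hK0 hKc hK1 htp hg0.1 rfl s3 (fun w hw => (s4 w hw).2) s5 hc hX hL1
    (by positivity) hcc hb1 hb1' hb2 hB1 n3 n3' n4 n5 hu hu0
  have hXc : X ^ 2 / (16 * κ) = c * t := by
    rw [hX, div_pow, Real.sq_sqrt htp.le, hcdef]
    field_simp
    norm_num
  rw [hXc] at hk
  set b := be D t with hb
  set M := HH D (I * t) * cexp (b * u - (κ : ℂ) * b ^ 2) with hM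
  set H := ‖HH D (I * t)‖ with hH
  have hH0 : 0 ≤ H := norm_nonneg _
  have hM0 : 0 ≤ ‖M‖ := norm_nonneg _
  -- lower bound of the main term
  have hHM : H ≤ ‖M‖ * Real.exp (C3 * L ^ 2) := by
    have h4 : ‖M‖ = H * Real.exp ((b * u - (κ : ℂ) * b ^ 2).re) := by
      rw [hM, norm_mul, Complex.norm_exp]
    rw [h4, mul_assoc, ← Real.exp_add]
    have h5 : 0 ≤ (b * u - (κ : ℂ) * b ^ 2).re + C3 * L ^ 2 := by
      have h6 : (b * u - (κ : ℂ) * b ^ 2).re = b.re * u.re - b.im * u.im -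
          κ * (b.re ^ 2 - b.im ^ 2) := by
        simp [sq]
      rw [h6]
      have h7 : b.im * u.im ≤ B * K1 * L := by
        have h8 : |b.im * u.im| ≤ B * (K1 * L) := by
          rw [abs_mul]
          exact mul_le_mul hb2 ((Complex.abs_im_le_norm u).trans hu) (abs_nonneg _) hB0.le
        have := le_abs_self (b.im * u.im)
        linarith
      have h9 : 0 ≤ b.re * u.re := mul_nonneg hb1 hu0
      have h10 : b.re ^ 2 ≤ L ^ 2 := pow_le_pow_left₀ hb1 hb1' 2
      have h11 : 0 ≤ κ * b.im ^ 2 := by positivity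
      have h12 : κ * b.re ^ 2 ≤ κ * L ^ 2 := mul_le_mul_of_nonneg_left h10 hκ.le
      have h13 : B * K1 * L ≤ B * K1 * L ^ 2 := mul_le_mul_of_nonneg_left hll (by positivity)
      rw [hC3]
      linarith
    calc H = H * 1 := (mul_one H).symm
      _ ≤ H * Real.exp ((b * u - (κ : ℂ) * b ^ 2).re + C3 * L ^ 2) :=
          mul_le_mul_of_nonneg_left (Real.one_le_exp h5) hH0
  -- the small quantity
  set ε : ℝ := Real.exp (C5 * L ^ 2 - c * t) with hε
  have hl2 : 1 ≤ L ^ 2 := hL1.trans hll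
  have hε1 : 6 * ε ≤ t ^ (-(9 / 10) : ℝ) * (1 / 1) := by
    rw [one_div_one, mul_one, Real.rpow_def_of_pos htp]
    have h4 : (6 : ℝ) ≤ Real.exp 2 := by
      have h5 : Real.exp 2 = Real.exp 1 * Real.exp 1 := by
        rw [← Real.exp_add]
        norm_num
      have h6 := Real.exp_one_gt_d9
      rw [h5]
      have h7 : (2.7182818283 : ℝ) * 2.7182818283 ≤ Real.exp 1 * Real.exp 1 :=
        mul_le_mul h6.le h6.le (by norm_num) (Real.exp_pos _).le
      refine le_trans ?_ h7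
      norm_num
    calc 6 * ε ≤ Real.exp 2 * ε := mul_le_mul_of_nonneg_right h4 (Real.exp_pos _).le
      _ = Real.exp (2 + (C5 * L ^ 2 - c * t)) := by rw [hε, ← Real.exp_add]
      _ ≤ Real.exp (Real.log t * (-(9 / 10))) := by
          refine Real.exp_le_exp.2 ?_
          have h7 : 0 ≤ (C5 + 3) * Λ ^ 2 * Real.sqrt t := by positivity
          have h8 : 0 < (C5 + 3) * Λ ^ 2 := by positivity
          have h9 : (C5 + 3) * Λ ^ 2 * Real.log t ^ 2 = (C5 + 3) * L ^ 2 := by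
            rw [hL2]
            ring
          rw [h9] at g1
          linarith
  have t1 : 1 / (2 * Real.sqrt Real.pi * Real.sqrt κ) * (2 * (2 * κ * L) * (H *
      Real.exp (C4 * L ^ 2 - c * t))) ≤ ‖M‖ * ε := by
    have h4 : q * L ≤ Real.exp (q * L ^ 2) := by
      have h5 := Real.add_one_le_exp (q * L ^ 2)
      have h6 : q * L ≤ q * L ^ 2 := mul_le_mul_of_nonneg_left hll hq0.le
      linarith
    calc 1 / (2 * Real.sqrt Real.pi * Real.sqrt κ) * (2 * (2 * κ * L) * (H *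
          Real.exp (C4 * L ^ 2 - c * t)))
        = (q * L) * (H * Real.exp (C4 * L ^ 2 - c * t)) := by rw [hq]; ring
      _ ≤ Real.exp (q * L ^ 2) * ((‖M‖ * Real.exp (C3 * L ^ 2)) *
          Real.exp (C4 * L ^ 2 - c * t)) := by
          refine mul_le_mul h4 (mul_le_mul_of_nonneg_right hHM (Real.exp_pos _).le) ?_
            (Real.exp_pos _).le
          positivity
      _ = ‖M‖ * Real.exp (q * L ^ 2 + (C3 * L ^ 2 + (C4 * L ^ 2 - c * t))) := by
          rw [Real.exp_add, Real.exp_add]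
          ring
      _ ≤ ‖M‖ * ε := by
          refine mul_le_mul_of_nonneg_left (Real.exp_le_exp.2 ?_) hM0
          have h7 : 0 ≤ (C2 + 1) * L ^ 2 := by positivity
          rw [hC5]
          linarith
  have t3 : 1 / (2 * Real.sqrt Real.pi * Real.sqrt κ) * (H * Real.exp (C2 * L ^ 2) *
      Real.exp (-(c * t)) * (4 * Real.sqrt Real.pi * Real.sqrt κ)) ≤ ‖M‖ * ε := by
    have h4 : (2 : ℝ) ≤ Real.exp (L ^ 2) := by
      have h5 := Real.add_one_le_exp (L ^ 2)
      linarith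
    calc 1 / (2 * Real.sqrt Real.pi * Real.sqrt κ) * (H * Real.exp (C2 * L ^ 2) *
          Real.exp (-(c * t)) * (4 * Real.sqrt Real.pi * Real.sqrt κ))
        = 2 * (H * (Real.exp (C2 * L ^ 2) * Real.exp (-(c * t)))) := by
          field_simp
          ring
      _ ≤ Real.exp (L ^ 2) * ((‖M‖ * Real.exp (C3 * L ^ 2)) *
          (Real.exp (C2 * L ^ 2) * Real.exp (-(c * t)))) := by
          refine mul_le_mul h4 (mul_le_mul_of_nonneg_right hHM (by positivity)) ?_
            (Real.exp_pos _).le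
          positivity
      _ = ‖M‖ * Real.exp (L ^ 2 + (C3 * L ^ 2 + (C2 * L ^ 2 + -(c * t)))) := by
          rw [Real.exp_add, Real.exp_add, Real.exp_add (C2 * L ^ 2)]
          ring
      _ ≤ ‖M‖ * ε := by
          refine mul_le_mul_of_nonneg_left (Real.exp_le_exp.2 ?_) hM0
          have h7 : 0 ≤ (q + C4) * L ^ 2 := by positivity
          rw [hC5]
          linarith
  have t4 : 1 / (2 * Real.sqrt Real.pi * Real.sqrt κ) * (‖M‖ *
      Real.exp (-(c * t)) * (4 * Real.sqrt Real.pi * Real.sqrt κ)) ≤ ‖M‖ * ε := by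
    have h4 : (2 : ℝ) ≤ Real.exp (L ^ 2) := by
      have h5 := Real.add_one_le_exp (L ^ 2)
      linarith
    calc 1 / (2 * Real.sqrt Real.pi * Real.sqrt κ) * (‖M‖ *
          Real.exp (-(c * t)) * (4 * Real.sqrt Real.pi * Real.sqrt κ))
        = ‖M‖ * (2 * Real.exp (-(c * t))) := by
          field_simp
          ring
      _ ≤ ‖M‖ * (Real.exp (L ^ 2) * Real.exp (-(c * t))) :=
          mul_le_mul_of_nonneg_left (mul_le_mul_of_nonneg_right h4 (Real.exp_pos _).le) hM0
      _ = ‖M‖ * Real.exp (L ^ 2 + -(c * t)) := by rw [Real.exp_add]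
      _ ≤ ‖M‖ * ε := by
          refine mul_le_mul_of_nonneg_left (Real.exp_le_exp.2 ?_) hM0
          have h7 : 0 ≤ (q + C2 + C3 + C4) * L ^ 2 := by positivity
          rw [hC5]
          linarith
  have t2 : 1 / (2 * Real.sqrt Real.pi * Real.sqrt κ) * (‖M‖ * (K0 / t) *
      (Real.exp (2 * κ * B ^ 2) * (2 * ((K1 + 2 * κ) * L) ^ 2 + 32 * κ)) *
      (4 * Real.sqrt Real.pi * Real.sqrt κ)) ≤ ‖M‖ * (1 / 2 * t ^ (-(9 / 10) : ℝ)) := by
    calc 1 / (2 * Real.sqrt Real.pi * Real.sqrt κ) * (‖M‖ * (K0 / t) *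
          (Real.exp (2 * κ * B ^ 2) * (2 * ((K1 + 2 * κ) * L) ^ 2 + 32 * κ)) *
          (4 * Real.sqrt Real.pi * Real.sqrt κ))
        = ‖M‖ * (2 * K0 * (Real.exp (2 * κ * B ^ 2) * (2 * ((K1 + 2 * κ) * L) ^ 2 + 32 * κ)) / t) := by
          field_simp
          ring
      _ ≤ ‖M‖ * (C6 * L ^ 2 / t) := by
          refine mul_le_mul_of_nonneg_left (div_le_div_of_nonneg_right ?_ htp.le) hM0
          rw [hC6]
          have h4 : Real.exp (2 * κ * B ^ 2) * (2 * ((K1 + 2 * κ) * L) ^ 2 + 32 * κ) ≤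
              Real.exp (2 * κ * B ^ 2) * (2 * (K1 + 2 * κ) ^ 2 + 32 * κ) * L ^ 2 := by
            rw [mul_assoc (Real.exp (2 * κ * B ^ 2))]
            refine mul_le_mul_of_nonneg_left ?_ (Real.exp_pos _).le
            have h5 := mul_le_mul_of_nonneg_left hl2 (show 0 ≤ 32 * κ by positivity)
            have h6 : (2 * (K1 + 2 * κ) ^ 2 + 32 * κ) * L ^ 2 =
                2 * ((K1 + 2 * κ) * L) ^ 2 + 32 * κ * L ^ 2 := by ring
            rw [h6]
            linarith
          have h5 := mul_le_mul_of_nonneg_left h4 (show 0 ≤ 2 * K0 by positivity)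
          linarith
      _ ≤ ‖M‖ * (1 / 2 * t ^ (-(9 / 10) : ℝ)) := by
          refine mul_le_mul_of_nonneg_left ?_ hM0
          have h9 : C6 * L ^ 2 = C6 * Λ ^ 2 * Real.log t ^ 2 := by
            rw [hL2]
            ring
          rw [h9]
          exact g2
  refine hk.trans ?_
  rw [mul_add, mul_add, mul_add]
  have hfin : ‖M‖ * ε + ‖M‖ * (1 / 2 * t ^ (-(9 / 10) : ℝ)) + ‖M‖ * ε + ‖M‖ * ε ≤
      t ^ (-(9 / 10) : ℝ) * ‖M‖ := by
    have h4 : 3 * ε ≤ 1 / 2 * t ^ (-(9 / 10) : ℝ) := by linarith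
    have h5 := mul_le_mul_of_nonneg_left h4 hM0
    linarith
  refine le_trans ?_ hfin
  exact add_le_add (add_le_add (add_le_add t1 t2) t3) t4

end Pool.Agent.W2.BG
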