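import Pool.Agent.W475.BG.Stm
import Pool.Agent.W947.BH.GGAKey

set_option autoImplicit false

/-!
# The backward heat flow of a gamma factor near the line: the main estimate
-/

namespace Pool.Agent.W2.BG

open Complex MeasureTheory Filter Topology
open Pool.Agent.W947.BH (ev_aux ev_aux2 gauss_bd gauss_int gauss_main gauss_main_int tail rect)

theorem GGg_eq (HH : ℂ → ℂ) (gg : ℂ) (κ : ℝ) (hκ : 0 < κ) (z : ℂ)
    (h3 : Integrable (fun v : ℝ => ((Real.exp (-v ^ 2) : ℝ) : ℂ) *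
      HH (z + I * ((2 * Real.sqrt κ * v : ℝ) : ℂ))))
    (h4 : gg = ((1 / Real.sqrt Real.pi : ℝ) : ℂ) *
      ∫ v : ℝ, ((Real.exp (-v ^ 2) : ℝ) : ℂ) * HH (z + I * ((2 * Real.sqrt κ * v : ℝ) : ℂ))) :
    Integrable (fun x : ℝ => ((Real.exp (-(x ^ 2 / (4 * κ))) : ℝ) : ℂ) * HH (z + I * (x : ℂ))) ∧
    gg = ((1 / (2 * Real.sqrt Real.pi * Real.sqrt κ) : ℝ) : ℂ) *
      ∫ x : ℝ, ((Real.exp (-(x ^ 2 / (4 * κ))) : ℝ) : ℂ) * HH (z + I * (x : ℂ)) := by
  have hs : 0 < Real.sqrt κ := Real.sqrt_pos.2 hκ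
  have hR : 2 * Real.sqrt κ ≠ 0 := by positivity
  set g : ℝ → ℂ := fun x : ℝ => ((Real.exp (-(x ^ 2 / (4 * κ))) : ℝ) : ℂ) * HH (z + I * (x : ℂ))
    with hg
  have h5 : (fun v : ℝ => ((Real.exp (-v ^ 2) : ℝ) : ℂ) *
    HH (z + I * ((2 * Real.sqrt κ * v : ℝ) : ℂ))) = fun v : ℝ => g (2 * Real.sqrt κ * v) := by
    funext v
    rw [hg]
    simp only
    congr 3
    have : (2 * Real.sqrt κ * v) ^ 2 = 4 * κ * v ^ 2 := by
      rw [mul_pow, mul_pow, Real.sq_sqrt hκ.le]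
      ring
    rw [this]
    field_simp
  rw [h5] at h3
  have h6 : ∫ v : ℝ, ((Real.exp (-v ^ 2) : ℝ) : ℂ) *
    HH (z + I * ((2 * Real.sqrt κ * v : ℝ) : ℂ)) = ∫ v : ℝ, g (2 * Real.sqrt κ * v) := by
    rw [h5]
  rw [h6] at h4
  refine ⟨(integrable_comp_mul_left_iff g hR).1 h3, ?_⟩
  rw [h4, Measure.integral_comp_mul_left g (2 * Real.sqrt κ), Complex.real_smul, ← mul_assoc,
    ← Complex.ofReal_mul]
  congr 2
  rw [abs_of_pos (by positivity)]
  have hp : Real.sqrt Real.pi ≠ 0 := (Real.sqrt_pos.2 Real.pi_pos).ne'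
  field_simp

/-- The shifted Gaussian is bounded by a centred one. -/
theorem Gg_le (κ b v B : ℝ) (hκ : 0 < κ) (hb : |b| ≤ B) :
    -((v + 2 * κ * b) ^ 2 / (4 * κ)) ≤ -(v ^ 2 / (4 * κ)) + B * |v| := by
  have h1 : -((v + 2 * κ * b) ^ 2 / (4 * κ)) = -(v ^ 2 / (4 * κ)) - b * v - κ * b ^ 2 := by
    field_simp
    ring
  have h2 : -(b * v) ≤ B * |v| := by
    have h3 : |b * v| ≤ B * |v| := by
      rw [abs_mul]
      exact mul_le_mul_of_nonneg_right hb (abs_nonneg v)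
    have h4 := neg_abs_le (b * v)
    linarith
  have h5 : 0 ≤ κ * b ^ 2 := by positivity
  rw [h1]
  linarith

theorem Gg_le2 (κ b v B : ℝ) (hκ : 0 < κ) (hb : |b| ≤ B) (Q : ℝ) (hQ : 0 ≤ Q) :
    Real.exp (-((v + 2 * κ * b) ^ 2 / (4 * κ))) * (Q + 2 * v ^ 2) ≤
      Real.exp (2 * κ * B ^ 2) * (Q + 32 * κ) * Real.exp (-(v ^ 2 / (16 * κ))) := by
  have h1 := Gg_le κ b v B hκ hb
  have h2 : B * |v| ≤ v ^ 2 / (8 * κ) + 2 * κ * B ^ 2 := by
    have h3 : 0 ≤ (|v| - 4 * κ * B) ^ 2 / (8 * κ) := by positivity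
    have h4 : (|v| - 4 * κ * B) ^ 2 / (8 * κ) = |v| ^ 2 / (8 * κ) - B * |v| + 2 * κ * B ^ 2 := by
      field_simp
      ring
    rw [sq_abs] at h4
    linarith
  have h8 : v ^ 2 / (4 * κ) = 4 * (v ^ 2 / (16 * κ)) := by
    field_simp
    norm_num
  have h9 : v ^ 2 / (8 * κ) = 2 * (v ^ 2 / (16 * κ)) := by
    field_simp
    ring
  set y := v ^ 2 / (16 * κ) with hy
  have hy0 : 0 ≤ y := by positivity
  have h10 : Real.exp (-((v + 2 * κ * b) ^ 2 / (4 * κ))) ≤ Real.exp (2 * κ * B ^ 2) * Real.exp (-(2 * y)) := by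
    rw [← Real.exp_add]
    refine Real.exp_le_exp.2 ?_
    linarith
  have h11 : v ^ 2 = 16 * κ * y := by
    rw [hy]
    field_simp
  have h12 : y * Real.exp (-(2 * y)) ≤ Real.exp (-y) := by
    have h13 : y ≤ Real.exp y := by
      have := Real.add_one_le_exp y
      linarith
    calc y * Real.exp (-(2 * y)) ≤ Real.exp y * Real.exp (-(2 * y)) :=
          mul_le_mul_of_nonneg_right h13 (Real.exp_pos _).le
      _ = Real.exp (-y) := by
          rw [← Real.exp_add]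
          congr 1
          ring
  have h14 : Real.exp (-(2 * y)) ≤ Real.exp (-y) := Real.exp_le_exp.2 (by linarith)
  calc Real.exp (-((v + 2 * κ * b) ^ 2 / (4 * κ))) * (Q + 2 * v ^ 2)
      ≤ Real.exp (2 * κ * B ^ 2) * Real.exp (-(2 * y)) * (Q + 2 * v ^ 2) :=
        mul_le_mul_of_nonneg_right h10 (by positivity)
    _ = Real.exp (2 * κ * B ^ 2) * (Q * Real.exp (-(2 * y)) + 32 * κ * (y * Real.exp (-(2 * y)))) := by
        rw [h11]
        ring
    _ ≤ Real.exp (2 * κ * B ^ 2) * (Q * Real.exp (-y) + 32 * κ * Real.exp (-y)) := by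
        refine mul_le_mul_of_nonneg_left (add_le_add ?_ ?_) (Real.exp_pos _).le
        · exact mul_le_mul_of_nonneg_left h14 hQ
        · exact mul_le_mul_of_nonneg_left h12 (by positivity)
    _ = Real.exp (2 * κ * B ^ 2) * (Q + 32 * κ) * Real.exp (-y) := by ring

theorem h9aux (x y κ v : ℝ) (u : ℂ) (hκ : (κ : ℂ) ≠ 0) :
    ((x : ℂ) + y * I) * (u + (-(2 * κ * x) + v * I)) + (-(2 * κ * x) + v * I) ^ 2 / (4 * κ) =
    ((x : ℂ) + y * I) * u - κ * ((x : ℂ) + y * I) ^ 2 + -((v + 2 * κ * y) ^ 2 / (4 * κ)) := by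
  have hI : I ^ 2 = -1 := Complex.I_sq
  have h4 : (-(2 * (κ : ℂ) * x) + v * I) ^ 2 / (4 * κ) =
      κ * x ^ 2 - x * v * I - v ^ 2 / (4 * κ) := by
    field_simp
    linear_combination (v : ℂ) ^ 2 * hI
  have h5 : ((v : ℂ) + 2 * κ * y) ^ 2 / (4 * κ) = v ^ 2 / (4 * κ) + y * v + κ * y ^ 2 := by
    field_simp
    ring
  rw [h4, h5]
  linear_combination (y * v + κ * y ^ 2 : ℂ) * hI

theorem keyg (HH : ℂ → ℂ) (b gg : ℂ) (κ K0 Kc K1 t X l c0 B : ℝ) (u : ℂ) (hκ : 0 < κ)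
    (hK0 : 1 ≤ K0) (hKc : 1 ≤ Kc) (hK1 : 1 ≤ K1) (ht : 0 < t)
    (hint : Integrable (fun v : ℝ => ((Real.exp (-v ^ 2) : ℝ) : ℂ) *
      HH (I * t + u + I * ((2 * Real.sqrt κ * v : ℝ) : ℂ))))
    (hgg : gg = ((1 / Real.sqrt Real.pi : ℝ) : ℂ) *
      ∫ v : ℝ, ((Real.exp (-v ^ 2) : ℝ) : ℂ) * HH (I * t + u + I * ((2 * Real.sqrt κ * v : ℝ) : ℂ)))
    (s3 : Real.exp (-(K0 * t)) ≤ ‖HH (I * t)‖)
    (s4 : ∀ u : ℂ, ‖u‖ ≤ t / 8 → DifferentiableAt ℂ HH (I * t + u) ∧
      ‖HH (I * t + u)‖ ≤ ‖HH (I * t)‖ * Real.exp (c0 * u.re + K0 * ‖u‖))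
    (s5 : ∀ u : ℂ, K0 * ‖u‖ ^ 2 ≤ t →
      ‖HH (I * t + u) - HH (I * t) * cexp (b * u)‖ ≤
        K0 * ‖u‖ ^ 2 / t * ‖HH (I * t) * cexp (b * u)‖)
    (hc : ∀ z : ℂ, 0 ≤ z.re →
      ‖HH z‖ ≤ (1 + ‖z‖) ^ 2 * Real.exp (Kc * (1 + z.re) * Real.log (2 + z.re)))
    (hX : X = Real.sqrt t / (2 * K0)) (hl : 1 ≤ l) (hc0 : 0 ≤ c0) (hc0l : c0 ≤ l / 2)
    (hb1 : 0 ≤ b.re) (hb1' : b.re ≤ l) (hb2 : |b.im| ≤ B) (hB : 1 ≤ B)
    (n3 : (K1 + 2 * κ) * l + X ≤ t / 8) (n3' : K1 * l ≤ t / 16)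
    (n4 : 2 * K0 * ((K1 + 2 * κ) * l) ^ 2 ≤ t / 2)
    (n5 : 8 * κ * (34 + 16 * K0 + B) ≤ X)
    (hu : ‖u‖ ≤ K1 * l) (hu0 : 0 ≤ u.re) :
    ‖gg - HH (I * t) * cexp (b * u - (κ : ℂ) * b ^ 2)‖ ≤
      1 / (2 * Real.sqrt Real.pi * Real.sqrt κ) *
      (2 * (2 * κ * l) * (‖HH (I * t)‖ *
          Real.exp ((K1 + K0 * (K1 + 2 * κ) + κ) * l ^ 2 - X ^ 2 / (16 * κ))) +
        ‖HH (I * t) * cexp (b * u - (κ : ℂ) * b ^ 2)‖ * (K0 / t) *
          (Real.exp (2 * κ * B ^ 2) * (2 * ((K1 + 2 * κ) * l) ^ 2 + 32 * κ)) *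
          (4 * Real.sqrt Real.pi * Real.sqrt κ) +
        ‖HH (I * t)‖ * Real.exp ((3 * K1 + K0 * K1 + Kc * (1 + K1) ^ 2) * l ^ 2) *
          Real.exp (-(X ^ 2 / (16 * κ))) * (4 * Real.sqrt Real.pi * Real.sqrt κ) +
        ‖HH (I * t) * cexp (b * u - (κ : ℂ) * b ^ 2)‖ *
          Real.exp (-(X ^ 2 / (16 * κ))) * (4 * Real.sqrt Real.pi * Real.sqrt κ)) := by
  have hn5 : 8 * κ * (34 + 16 * K0) ≤ X := by
    have : 8 * κ * (34 + 16 * K0) ≤ 8 * κ * (34 + 16 * K0 + B) :=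
      mul_le_mul_of_nonneg_left (by linarith) (by positivity)
    linarith
  set M := HH (I * t) * cexp (b * u - (κ : ℂ) * b ^ 2) with hM
  set H := ‖HH (I * t)‖ with hH
  have hH0 : 0 ≤ H := norm_nonneg _
  have hM0 : 0 ≤ ‖M‖ := norm_nonneg _
  have hl0 : 0 < l := by linarith
  have hll : l ≤ l ^ 2 := by nlinarith
  have hK0' : 0 < K0 := by linarith
  have hX0 : 0 < X := by
    have : 0 < 8 * κ * (34 + 16 * K0) := by positivity
    linarith
  have hX2 : 2 * K0 * X ^ 2 ≤ t / 2 := by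
    rw [hX, div_pow, Real.sq_sqrt ht.le]
    rw [show 2 * K0 * (t / (2 * K0) ^ 2) = t / 2 / K0 by field_simp]
    exact div_le_self (by positivity) hK0
  obtain ⟨hfi, hGG⟩ := GGg_eq HH gg κ hκ (I * t + u) hint hgg
  set f : ℝ → ℂ := fun x : ℝ => ((Real.exp (-(x ^ 2 / (4 * κ))) : ℝ) : ℂ) *
    HH (I * t + u + I * (x : ℂ)) with hf
  set F : ℂ → ℂ := fun w => HH (I * t + (u + w)) * cexp (w ^ 2 / (4 * (κ : ℂ))) with hF
  set G : ℝ → ℝ := fun v => Real.exp (-((v + 2 * κ * b.im) ^ 2 / (4 * κ))) with hG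
  have hκc : (κ : ℂ) ≠ 0 := by exact_mod_cast hκ.ne'
  -- the norm of the Gaussian factor
  have hgn : ∀ w : ℂ, ‖cexp (w ^ 2 / (4 * (κ : ℂ)))‖ = Real.exp ((w.re ^ 2 - w.im ^ 2) / (4 * κ)) := by
    intro w
    rw [Complex.norm_exp]
    congr 1
    have h1 : (4 * (κ : ℂ)) = ((4 * κ : ℝ) : ℂ) := by push_cast; ring
    rw [h1, Complex.div_ofReal_re]
    congr 1
    simp [sq]
  -- the values on the line
  have hFf : ∀ y : ℝ, F ((0 : ℝ) + y * I) = f y := by
    intro y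
    simp only [hF, hf]
    rw [mul_comm]
    congr 1
    · rw [Complex.ofReal_exp]
      congr 1
      push_cast
      rw [zero_add, mul_pow, Complex.I_sq]
      ring
    · congr 1
      push_cast
      ring
  have hre : ∀ w : ℂ, (I * (t : ℂ) + w).re = w.re := by
    intro w
    simp
  -- differentiability
  have hnorm : ∀ w : ℂ, -(2 * κ * b.re) ≤ w.re → w.re ≤ 0 → |w.im| ≤ X →
      ‖u + w‖ ≤ (K1 + 2 * κ) * l + |w.im| := by
    intro w h1 h3 _
    have h4 : ‖w‖ ≤ |w.re| + |w.im| := Complex.norm_le_abs_re_add_abs_im w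
    have h5 : |w.re| ≤ 2 * κ * l := by
      rw [abs_of_nonpos h3]
      have : 2 * κ * b.re ≤ 2 * κ * l := mul_le_mul_of_nonneg_left hb1' (by positivity)
      linarith
    have h6 := norm_add_le u w
    nlinarith
  have hnorm8 : ∀ w : ℂ, -(2 * κ * b.re) ≤ w.re → w.re ≤ 0 → |w.im| ≤ X → ‖u + w‖ ≤ t / 8 := by
    intro w h1 h3 h4
    have := hnorm w h1 h3 h4
    linarith
  have hdiff : ∀ w : ℂ, -(2 * κ * b.re) ≤ w.re → w.re ≤ 0 → |w.im| ≤ X →
      DifferentiableAt ℂ F w := by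
    intro w h1 h3 h4
    have h5 := (s4 (u + w) (hnorm8 w h1 h3 h4)).1
    have h6 : DifferentiableAt ℂ (fun w : ℂ => HH (I * t + (u + w))) w := by
      refine DifferentiableAt.comp w (g := HH) (f := fun w : ℂ => I * t + (u + w)) h5 ?_
      fun_prop
    have h7 : DifferentiableAt ℂ (fun w : ℂ => cexp (w ^ 2 / (4 * (κ : ℂ)))) w := by fun_prop
    exact h6.mul h7
  -- horizontal sides
  have hhor : ∀ w : ℂ, -(2 * κ * b.re) ≤ w.re → w.re ≤ 0 → |w.im| = X → ‖F w‖ ≤ H *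
      Real.exp ((K1 + K0 * (K1 + 2 * κ) + κ) * l ^ 2 - X ^ 2 / (16 * κ)) := by
    intro w h1 h3 h4
    have h5 := (s4 (u + w) (hnorm8 w h1 h3 h4.le)).2
    have h6 := hnorm w h1 h3 h4.le
    simp only [hF]
    rw [norm_mul, hgn]
    refine (mul_le_mul_of_nonneg_right h5 (Real.exp_pos _).le).trans ?_
    rw [mul_assoc, ← Real.exp_add]
    refine mul_le_mul_of_nonneg_left (Real.exp_le_exp.2 ?_) hH0
    have h7 : (u + w).re ≤ K1 * l := by
      rw [Complex.add_re]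
      have := (Complex.re_le_norm u).trans hu
      linarith
    have h8 : c0 * (u + w).re ≤ K1 * l ^ 2 := by
      calc c0 * (u + w).re ≤ c0 * (K1 * l) :=
            mul_le_mul_of_nonneg_left h7 hc0
        _ ≤ l / 2 * (K1 * l) := mul_le_mul_of_nonneg_right hc0l (by positivity)
        _ ≤ K1 * l ^ 2 := by nlinarith
    have h9 : K0 * ‖u + w‖ ≤ K0 * (K1 + 2 * κ) * l ^ 2 + K0 * X := by
      calc K0 * ‖u + w‖ ≤ K0 * ((K1 + 2 * κ) * l + |w.im|) :=
            mul_le_mul_of_nonneg_left h6 hK0'.le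
        _ = K0 * (K1 + 2 * κ) * l + K0 * X := by rw [h4]; ring
        _ ≤ K0 * (K1 + 2 * κ) * l ^ 2 + K0 * X := by
            have : K0 * (K1 + 2 * κ) * l ≤ K0 * (K1 + 2 * κ) * l ^ 2 :=
              mul_le_mul_of_nonneg_left hll (by positivity)
            linarith
    have h10 : w.im ^ 2 = X ^ 2 := by rw [← h4, sq_abs]
    have h11 : w.re ^ 2 ≤ (2 * κ * l) ^ 2 := by
      have h12 : |w.re| ≤ 2 * κ * l := by
        rw [abs_of_nonpos h3]
        have : 2 * κ * b.re ≤ 2 * κ * l := mul_le_mul_of_nonneg_left hb1' (by positivity)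
        linarith
      rw [← sq_abs w.re]
      exact pow_le_pow_left₀ (abs_nonneg _) h12 2
    have h13 : (w.re ^ 2 - w.im ^ 2) / (4 * κ) ≤ κ * l ^ 2 - X ^ 2 / (4 * κ) := by
      rw [h10, sub_div]
      have : w.re ^ 2 / (4 * κ) ≤ κ * l ^ 2 := by
        rw [div_le_iff₀ (by positivity)]
        nlinarith
      linarith
    have h14 : K0 * X ≤ X ^ 2 / (8 * κ) := by
      rw [le_div_iff₀ (by positivity)]
      have h15 : 8 * κ * K0 ≤ X := by
        have : 8 * κ * K0 ≤ 8 * κ * (34 + 16 * K0) :=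
          mul_le_mul_of_nonneg_left (by linarith) (by positivity)
        linarith
      nlinarith
    have h16 : X ^ 2 / (4 * κ) = 4 * (X ^ 2 / (16 * κ)) := by
      field_simp
      norm_num
    have h17 : X ^ 2 / (8 * κ) = 2 * (X ^ 2 / (16 * κ)) := by
      field_simp
      ring
    have h18 : 0 ≤ X ^ 2 / (16 * κ) := by positivity
    rw [h16] at h13
    rw [h17] at h14
    linarith
  have ha : 0 ≤ 2 * κ * b.re := by positivity
  have hrect := rect F (2 * κ * b.re) X _ ha hX0.le hdiff hhor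
  -- the segment
  have hFM : ∀ v : ℝ, |v| ≤ X → ‖F ((-(2 * κ * b.re) : ℝ) + v * I) - M * (G v : ℂ)‖ ≤
      ‖M‖ * (K0 / t) * (Real.exp (2 * κ * B ^ 2) * (2 * ((K1 + 2 * κ) * l) ^ 2 + 32 * κ)) *
        Real.exp (-(v ^ 2 / (16 * κ))) := by
    intro v hv
    set w : ℂ := (-(2 * κ * b.re) : ℝ) + v * I with hw
    have hwre : w.re = -(2 * κ * b.re) := by simp [hw]
    have hwim : w.im = v := by simp [hw]
    have h1 : ‖u + w‖ ≤ (K1 + 2 * κ) * l + |v| := by
      have := hnorm w (by rw [hwre]) (by rw [hwre]; linarith) (by rw [hwim]; exact hv)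
      rwa [hwim] at this
    have h3 : ‖u + w‖ ^ 2 ≤ 2 * ((K1 + 2 * κ) * l) ^ 2 + 2 * v ^ 2 := by
      have h4 : ‖u + w‖ ^ 2 ≤ ((K1 + 2 * κ) * l + |v|) ^ 2 :=
        pow_le_pow_left₀ (norm_nonneg _) h1 2
      have h5 : |v| ^ 2 = v ^ 2 := sq_abs v
      nlinarith [sq_nonneg ((K1 + 2 * κ) * l - |v|)]
    have h6 : v ^ 2 ≤ X ^ 2 := by
      rw [← sq_abs v]
      exact pow_le_pow_left₀ (abs_nonneg _) hv 2
    have h7 : K0 * ‖u + w‖ ^ 2 ≤ t := by
      calc K0 * ‖u + w‖ ^ 2 ≤ K0 * (2 * ((K1 + 2 * κ) * l) ^ 2 + 2 * v ^ 2) :=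
            mul_le_mul_of_nonneg_left h3 hK0'.le
        _ ≤ K0 * (2 * ((K1 + 2 * κ) * l) ^ 2 + 2 * X ^ 2) :=
            mul_le_mul_of_nonneg_left (by linarith) hK0'.le
        _ ≤ t := by linarith
    have h8 := s5 (u + w) h7
    have h9 : cexp (b * (u + w)) * cexp (w ^ 2 / (4 * (κ : ℂ))) =
        cexp (b * u - (κ : ℂ) * b ^ 2) * (G v : ℂ) := by
      simp only [hG]
      rw [Complex.ofReal_exp, ← Complex.exp_add, ← Complex.exp_add]
      congr 1
      have h10 : (b.re : ℂ) + b.im * I = b := Complex.re_add_im b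
      have h13 := h9aux b.re b.im κ v u hκc
      rw [h10] at h13
      rw [hw]
      push_cast
      exact h13
    have h11 : F w - M * (G v : ℂ) = (HH (I * t + (u + w)) - HH (I * t) * cexp (b * (u + w))) *
        cexp (w ^ 2 / (4 * (κ : ℂ))) := by
      simp only [hF, hM]
      rw [sub_mul, mul_assoc (HH (I * t)), mul_assoc (HH (I * t)), h9]
    have h12 : ‖HH (I * t) * cexp (b * (u + w))‖ * ‖cexp (w ^ 2 / (4 * (κ : ℂ)))‖ = ‖M‖ * G v := by
      rw [← norm_mul, mul_assoc, h9, ← mul_assoc, norm_mul, Complex.norm_real, Real.norm_eq_abs,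
        abs_of_pos (show 0 < G v from Real.exp_pos _)]
    rw [h11, norm_mul]
    calc ‖HH (I * t + (u + w)) - HH (I * t) * cexp (b * (u + w))‖ *
          ‖cexp (w ^ 2 / (4 * (κ : ℂ)))‖
        ≤ (K0 * ‖u + w‖ ^ 2 / t * ‖HH (I * t) * cexp (b * (u + w))‖) *
          ‖cexp (w ^ 2 / (4 * (κ : ℂ)))‖ := mul_le_mul_of_nonneg_right h8 (norm_nonneg _)
      _ = K0 * ‖u + w‖ ^ 2 / t * (‖M‖ * G v) := by rw [mul_assoc, h12]
      _ = ‖M‖ * (K0 / t) * (G v * ‖u + w‖ ^ 2) := by ring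
      _ ≤ ‖M‖ * (K0 / t) * (G v * (2 * ((K1 + 2 * κ) * l) ^ 2 + 2 * v ^ 2)) := by
          refine mul_le_mul_of_nonneg_left (mul_le_mul_of_nonneg_left h3 (Real.exp_pos _).le) ?_
          positivity
      _ ≤ ‖M‖ * (K0 / t) * (Real.exp (2 * κ * B ^ 2) * (2 * ((K1 + 2 * κ) * l) ^ 2 + 32 * κ) *
            Real.exp (-(v ^ 2 / (16 * κ)))) := by
          refine mul_le_mul_of_nonneg_left ?_ (by positivity)
          exact Gg_le2 κ b.im v B hκ hb2 _ (by positivity)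
      _ = _ := by ring
  -- tails
  have htf : ‖∫ x in (Set.Ioc (-X) X)ᶜ, f x‖ ≤
      H * Real.exp ((3 * K1 + K0 * K1 + Kc * (1 + K1) ^ 2) * l ^ 2) *
        Real.exp (-(X ^ 2 / (16 * κ))) * (4 * Real.sqrt Real.pi * Real.sqrt κ) := by
    refine tail κ (34 + 16 * K0) X _ hκ hn5 hX0 (by positivity) f fun x hx => ?_
    simp only [hf]
    rw [norm_mul, Complex.norm_real, Real.norm_eq_abs, abs_of_pos (Real.exp_pos _)]
    have hx0 : 0 ≤ |x| := abs_nonneg x
    have hux : ‖u + I * (x : ℂ)‖ ≤ K1 * l + |x| := by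
      refine (norm_add_le _ _).trans ?_
      rw [norm_mul, Complex.norm_I, one_mul, Complex.norm_real, Real.norm_eq_abs]
      linarith
    have hkey : ‖HH (I * t + u + I * (x : ℂ))‖ ≤
        H * Real.exp ((3 * K1 + K0 * K1 + Kc * (1 + K1) ^ 2) * l ^ 2 + (34 + 16 * K0) * |x|) := by
      rcases le_or_gt |x| (t / 16) with h1 | h1
      · have h3 : ‖u + I * (x : ℂ)‖ ≤ t / 8 := by linarith
        have h4 := (s4 _ h3).2
        rw [← add_assoc] at h4
        refine h4.trans (mul_le_mul_of_nonneg_left (Real.exp_le_exp.2 ?_) hH0)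
        have h5 : (u + I * (x : ℂ)).re ≤ K1 * l := by
          have : (u + I * (x : ℂ)).re = u.re := by simp
          rw [this]
          exact (Complex.re_le_norm u).trans hu
        have h8 : c0 * (u + I * (x : ℂ)).re ≤ K1 * l ^ 2 := by
          calc c0 * (u + I * (x : ℂ)).re ≤ c0 * (K1 * l) :=
                mul_le_mul_of_nonneg_left h5 hc0
            _ ≤ l / 2 * (K1 * l) := mul_le_mul_of_nonneg_right hc0l (by positivity)
            _ ≤ K1 * l ^ 2 := by nlinarith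
        have h9 : K0 * ‖u + I * (x : ℂ)‖ ≤ K0 * K1 * l ^ 2 + K0 * |x| := by
          calc K0 * ‖u + I * (x : ℂ)‖ ≤ K0 * (K1 * l + |x|) :=
                mul_le_mul_of_nonneg_left hux hK0'.le
            _ = K0 * K1 * l + K0 * |x| := by ring
            _ ≤ K0 * K1 * l ^ 2 + K0 * |x| := by
                have : K0 * K1 * l ≤ K0 * K1 * l ^ 2 :=
                  mul_le_mul_of_nonneg_left hll (by positivity)
                linarith
        have h10 : 0 ≤ (2 * K1 + Kc * (1 + K1) ^ 2) * l ^ 2 := by positivity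
        have h11 : K0 * |x| ≤ (34 + 16 * K0) * |x| :=
          mul_le_mul_of_nonneg_right (by linarith) hx0
        nlinarith
      · have h3 : (I * t + u + I * (x : ℂ)).re = u.re := by simp
        have h4 := hc (I * t + u + I * (x : ℂ)) (by rw [h3]; exact hu0)
        rw [h3] at h4
        have h5 : ‖I * (t : ℂ) + u + I * (x : ℂ)‖ ≤ 17 * |x| + K1 * l := by
          rw [add_assoc]
          refine (norm_add_le _ _).trans ?_
          rw [norm_mul, Complex.norm_I, one_mul, Complex.norm_real, Real.norm_eq_abs,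
            abs_of_pos ht]
          linarith
        have h6 : (1 + ‖I * (t : ℂ) + u + I * (x : ℂ)‖) ^ 2 ≤
            Real.exp (34 * |x| + 2 * K1 * l) := by
          have h7 : 1 + ‖I * (t : ℂ) + u + I * (x : ℂ)‖ ≤ Real.exp (17 * |x| + K1 * l) := by
            have := Real.add_one_le_exp (17 * |x| + K1 * l)
            linarith
          calc (1 + ‖I * (t : ℂ) + u + I * (x : ℂ)‖) ^ 2 ≤ Real.exp (17 * |x| + K1 * l) ^ 2 :=
                pow_le_pow_left₀ (by positivity) h7 2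
            _ = Real.exp (34 * |x| + 2 * K1 * l) := by
                rw [sq, ← Real.exp_add]
                congr 1
                ring
        have hθ : u.re ≤ K1 * l := (Complex.re_le_norm u).trans hu
        have h8 : Kc * (1 + u.re) * Real.log (2 + u.re) ≤ Kc * (1 + K1) ^ 2 * l ^ 2 := by
          have h9 : Real.log (2 + u.re) ≤ 1 + u.re := by
            have := Real.log_le_sub_one_of_pos (show 0 < 2 + u.re by linarith)
            linarith
          have h10 : 1 + u.re ≤ (1 + K1) * l := by nlinarith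
          calc Kc * (1 + u.re) * Real.log (2 + u.re) ≤ Kc * (1 + u.re) * (1 + u.re) :=
                mul_le_mul_of_nonneg_left h9 (by positivity)
            _ = Kc * (1 + u.re) ^ 2 := by ring
            _ ≤ Kc * ((1 + K1) * l) ^ 2 :=
                mul_le_mul_of_nonneg_left (pow_le_pow_left₀ (by positivity) h10 2) (by positivity)
            _ = Kc * (1 + K1) ^ 2 * l ^ 2 := by ring
        have h11 : 1 ≤ H * Real.exp (16 * K0 * |x|) := by
          calc (1 : ℝ) = Real.exp (-(K0 * t)) * Real.exp (K0 * t) := by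
                rw [← Real.exp_add, neg_add_cancel, Real.exp_zero]
            _ ≤ H * Real.exp (16 * K0 * |x|) := by
                refine mul_le_mul s3 (Real.exp_le_exp.2 ?_) (Real.exp_pos _).le hH0
                nlinarith
        calc ‖HH (I * t + u + I * (x : ℂ))‖
            ≤ (1 + ‖I * (t : ℂ) + u + I * (x : ℂ)‖) ^ 2 *
              Real.exp (Kc * (1 + u.re) * Real.log (2 + u.re)) := h4
          _ ≤ Real.exp (34 * |x| + 2 * K1 * l) * Real.exp (Kc * (1 + K1) ^ 2 * l ^ 2) :=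
              mul_le_mul h6 (Real.exp_le_exp.2 h8) (Real.exp_pos _).le (Real.exp_pos _).le
          _ = 1 * Real.exp (34 * |x| + 2 * K1 * l + Kc * (1 + K1) ^ 2 * l ^ 2) := by
              rw [← Real.exp_add, one_mul]
          _ ≤ (H * Real.exp (16 * K0 * |x|)) *
              Real.exp (34 * |x| + 2 * K1 * l + Kc * (1 + K1) ^ 2 * l ^ 2) :=
              mul_le_mul_of_nonneg_right h11 (Real.exp_pos _).le
          _ = H * Real.exp (16 * K0 * |x| + (34 * |x| + 2 * K1 * l + Kc * (1 + K1) ^ 2 * l ^ 2)) := by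
              rw [mul_assoc, ← Real.exp_add]
          _ ≤ _ := by
              refine mul_le_mul_of_nonneg_left (Real.exp_le_exp.2 ?_) hH0
              have h12 : 2 * K1 * l ≤ 2 * K1 * l ^ 2 :=
                mul_le_mul_of_nonneg_left hll (by positivity)
              have h13 : 0 ≤ (K1 + K0 * K1) * l ^ 2 := by positivity
              nlinarith
    calc Real.exp (-(x ^ 2 / (4 * κ))) * ‖HH (I * t + u + I * (x : ℂ))‖
        ≤ Real.exp (-(x ^ 2 / (4 * κ))) * (H * Real.exp ((3 * K1 + K0 * K1 +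
          Kc * (1 + K1) ^ 2) * l ^ 2 + (34 + 16 * K0) * |x|)) :=
          mul_le_mul_of_nonneg_left hkey (Real.exp_pos _).le
      _ = H * Real.exp ((3 * K1 + K0 * K1 + Kc * (1 + K1) ^ 2) * l ^ 2) *
          Real.exp (-(x ^ 2 / (4 * κ)) + (34 + 16 * K0) * |x|) := by
          rw [Real.exp_add, Real.exp_add]
          ring
  have htG : ‖∫ x in (Set.Ioc (-X) X)ᶜ, M * (G x : ℂ)‖ ≤
      ‖M‖ * Real.exp (-(X ^ 2 / (16 * κ))) * (4 * Real.sqrt Real.pi * Real.sqrt κ) := by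
    refine tail κ B X _ hκ ?_ hX0 hM0 _ fun x hx => ?_
    · have : 8 * κ * B ≤ 8 * κ * (34 + 16 * K0 + B) :=
        mul_le_mul_of_nonneg_left (by linarith) (by positivity)
      linarith
    · rw [norm_mul, Complex.norm_real, Real.norm_eq_abs,
        abs_of_pos (show 0 < G x from Real.exp_pos _)]
      exact mul_le_mul_of_nonneg_left (Real.exp_le_exp.2 (Gg_le κ b.im x B hκ hb2)) hM0
  -- assembly
  have hGint : Integrable (fun x : ℝ => M * (G x : ℂ)) :=
    ((gauss_main_int κ (2 * κ * b.im) hκ).ofReal).const_mul M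
  have hGval : ∫ x : ℝ, M * (G x : ℂ) = M * ((2 * Real.sqrt Real.pi * Real.sqrt κ : ℝ) : ℂ) := by
    rw [integral_const_mul, integral_complex_ofReal, gauss_main κ (2 * κ * b.im) hκ]
  have hsplitf := integral_add_compl (measurableSet_Ioc (a := -X) (b := X)) hfi
  have hsplitG := integral_add_compl (measurableSet_Ioc (a := -X) (b := X)) hGint
  have hcont : ContinuousOn (fun v : ℝ => F ((-(2 * κ * b.re) : ℝ) + v * I))
      (Set.uIcc (-X) X) := by
    intro v hv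
    rw [Set.uIcc_of_le (by linarith)] at hv
    have h1 : DifferentiableAt ℂ F ((-(2 * κ * b.re) : ℝ) + v * I) := by
      refine hdiff _ (by simp) (by simp; positivity) ?_
      simp
      exact abs_le.2 hv
    have h3 : ContinuousAt (fun v : ℝ => ((-(2 * κ * b.re) : ℝ) : ℂ) + v * I) v := by
      fun_prop
    exact (ContinuousAt.comp (g := F) (f := fun v : ℝ => ((-(2 * κ * b.re) : ℝ) : ℂ) + v * I)
      h1.continuousAt h3).continuousWithinAt
  have hE : ‖(∫ v : ℝ in (-X)..X, F ((-(2 * κ * b.re) : ℝ) + v * I)) -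
      ∫ v in (-X)..X, M * (G v : ℂ)‖ ≤
      ‖M‖ * (K0 / t) * (Real.exp (2 * κ * B ^ 2) * (2 * ((K1 + 2 * κ) * l) ^ 2 + 32 * κ)) *
        (4 * Real.sqrt Real.pi * Real.sqrt κ) := by
    rw [← intervalIntegral.integral_sub hcont.intervalIntegrable
      hGint.intervalIntegrable, intervalIntegral.integral_of_le (by linarith)]
    have hg : Integrable fun x : ℝ =>
        ‖M‖ * (K0 / t) * (Real.exp (2 * κ * B ^ 2) * (2 * ((K1 + 2 * κ) * l) ^ 2 + 32 * κ)) *
          Real.exp (-(x ^ 2 / (16 * κ))) := (gauss_int κ hκ).const_mul _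
    refine (norm_integral_le_of_norm_le hg.integrableOn
      ((ae_restrict_iff' measurableSet_Ioc).2 (Eventually.of_forall fun v hv =>
        hFM v (abs_le.2 ⟨hv.1.le, hv.2⟩)))).trans ?_
    refine (setIntegral_le_integral hg (Eventually.of_forall fun x => ?_)).trans ?_
    · simp only [Pi.zero_apply]
      positivity
    · rw [integral_const_mul, gauss_bd κ hκ]
  have hN : (0 : ℝ) < 2 * Real.sqrt Real.pi * Real.sqrt κ := by
    have h1 := Real.sqrt_pos.2 Real.pi_pos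
    have h3 := Real.sqrt_pos.2 hκ
    positivity
  have hMN : M = ((1 / (2 * Real.sqrt Real.pi * Real.sqrt κ) : ℝ) : ℂ) *
      ∫ x : ℝ, M * (G x : ℂ) := by
    rw [hGval]
    have h1 : ((1 / (2 * Real.sqrt Real.pi * Real.sqrt κ) : ℝ) : ℂ) *
        ((2 * Real.sqrt Real.pi * Real.sqrt κ : ℝ) : ℂ) = 1 := by
      rw [← Complex.ofReal_mul, one_div_mul_cancel hN.ne', Complex.ofReal_one]
    calc M = M * 1 := (mul_one _).symm
      _ = M * (((1 / (2 * Real.sqrt Real.pi * Real.sqrt κ) : ℝ) : ℂ) *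
        ((2 * Real.sqrt Real.pi * Real.sqrt κ : ℝ) : ℂ)) := by rw [h1]
      _ = _ := by ring
  have hfin : gg - M = ((1 / (2 * Real.sqrt Real.pi * Real.sqrt κ) : ℝ) : ℂ) *
      (((∫ y : ℝ in (-X)..X, F ((0 : ℝ) + y * I)) -
          ∫ y : ℝ in (-X)..X, F ((-(2 * κ * b.re) : ℝ) + y * I)) +
        ((∫ v : ℝ in (-X)..X, F ((-(2 * κ * b.re) : ℝ) + v * I)) -
          ∫ v in (-X)..X, M * (G v : ℂ)) +
        (∫ x in (Set.Ioc (-X) X)ᶜ, f x) - ∫ x in (Set.Ioc (-X) X)ᶜ, M * (G x : ℂ)) := by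
    have h1 : ∫ y : ℝ in (-X)..X, F ((0 : ℝ) + y * I) = ∫ y in Set.Ioc (-X) X, f y := by
      rw [intervalIntegral.integral_of_le (by linarith)]
      refine integral_congr_ae (Eventually.of_forall fun y => hFf y)
    have h3 : ∫ v in (-X)..X, M * (G v : ℂ) = ∫ v in Set.Ioc (-X) X, M * (G v : ℂ) :=
      intervalIntegral.integral_of_le (by linarith)
    rw [h1, h3, hGG]
    nth_rewrite 1 [hMN]
    rw [← hsplitf, ← hsplitG]
    ring
  rw [hfin, norm_mul, Complex.norm_real, Real.norm_eq_abs,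
    abs_of_pos (show 0 < 1 / (2 * Real.sqrt Real.pi * Real.sqrt κ) by positivity)]
  refine mul_le_mul_of_nonneg_left ?_ (by positivity)
  have hab : 2 * (2 * κ * b.re) * (H *
      Real.exp ((K1 + K0 * (K1 + 2 * κ) + κ) * l ^ 2 - X ^ 2 / (16 * κ))) ≤
      2 * (2 * κ * l) * (H *
      Real.exp ((K1 + K0 * (K1 + 2 * κ) + κ) * l ^ 2 - X ^ 2 / (16 * κ))) := by
    refine mul_le_mul_of_nonneg_right ?_ (by positivity)
    have : 2 * κ * b.re ≤ 2 * κ * l := mul_le_mul_of_nonneg_left hb1' (by positivity)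
    linarith
  refine (norm_sub_le _ _).trans (add_le_add ((norm_add_le _ _).trans (add_le_add
    ((norm_add_le _ _).trans (add_le_add (hrect.trans hab) hE)) htf)) htG)

end Pool.Agent.W2.BG
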